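import Pool.Agent.X256.ZP.Count
import Pool.Agent.X256.ZP.Fit

/-!
# Solvable groups of large Fitting height with few zeros in the character table
-/

open scoped BigOperators Classical
open Representation Pool.Agent.Helper884.IC Pool.Agent.X256.CT Pool.Agent.X256.ZP

noncomputable section

namespace Pool.Agent.Results.MP_c522d4_al.ZeroProportion

/-- the proportion of zero entries in the character table of `G` -/
def zeroProportion (G : Type) [Group G] : ℝ :=
  (Nat.card {q : ConjClasses G × {chi : G → ℂ // IsIrrChar chi} //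
    ∀ g : G, ConjClasses.mk g = q.1 → q.2.1 g = 0} : ℝ) /
  ((Nat.card (ConjClasses G) : ℝ) * (Nat.card {chi : G → ℂ // IsIrrChar chi} : ℝ))

lemma zp_nonneg (G : Type) [Group G] : 0 ≤ zeroProportion G := by
  unfold zeroProportion
  positivity

section
variable {p : ℕ} [hp : Fact p.Prime] {K : Type} [Group K] [Fintype K]

/-- the zero proportion of `C_p ≀ K` is at most `|K|^2 / p` -/
theorem zp_wreath (hK : Fintype.card K < p) :
    zeroProportion (W p K) ≤ (Fintype.card K : ℝ) ^ 2 / p := by
  set n := Fintype.card K with hn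
  have hnpos : 0 < n := Fintype.card_pos
  have hppos : 0 < p := hp.out.pos
  set kc := Nat.card (ConjClasses (W p K)) with hkc
  set cv := (CV p K).card with hcv
  haveI : Finite {chi : W p K → ℂ // IsIrrChar chi} := irr_finite.to_subtype
  set ki := Nat.card {chi : W p K → ℂ // IsIrrChar chi} with hki
  have hle : cv ≤ kc := by
    rw [hkc, Nat.card_eq_fintype_card]
    exact Finset.card_le_univ _
  have hz : Nat.card {q : ConjClasses (W p K) × {chi : W p K → ℂ // IsIrrChar chi} //
      ∀ g : W p K, ConjClasses.mk g = q.1 → q.2.1 g = 0} ≤ (kc - cv) * ki := by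
    have h1 : Nat.card ({C : ConjClasses (W p K) // C ∉ CV p K} ×
        {chi : W p K → ℂ // IsIrrChar chi}) = (kc - cv) * ki := by
      rw [Nat.card_prod]
      congr 1
      rw [Nat.card_eq_fintype_card, Fintype.card_subtype_compl, hkc, Nat.card_eq_fintype_card,
        hcv, Fintype.card_coe]
    rw [← h1]
    refine Nat.card_le_card_of_injective
      (fun q => (⟨q.1.1, ?_⟩, q.1.2)) ?_
    · intro hmem
      obtain ⟨g, _, hg⟩ := Finset.mem_image.mp hmem
      exact ne_zero_base hK q.1.2.2 g (q.2 (el g) hg)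
    · rintro ⟨⟨C, chi⟩, h⟩ ⟨⟨C', chi'⟩, h'⟩ heq
      simp only [Prod.mk.injEq, Subtype.mk.injEq] at heq
      obtain ⟨rfl, rfl⟩ := heq
      rfl
  have hkcpos : 0 < kc := by
    rw [hkc]
    exact Nat.card_pos
  have h2 : zeroProportion (W p K) ≤ ((kc - cv : ℕ) : ℝ) / kc := by
    unfold zeroProportion
    rw [← hkc, ← hki]
    by_cases h0 : ki = 0
    · rw [h0]
      simp only [Nat.cast_zero, mul_zero, div_zero]
      positivity
    · have hkipos : (0 : ℝ) < ki := by exact_mod_cast Nat.pos_of_ne_zero h0
      have hkc' : (0 : ℝ) < kc := by exact_mod_cast hkcpos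
      rw [div_le_div_iff₀ (by positivity) hkc']
      have hz' : (Nat.card {q : ConjClasses (W p K) × {chi : W p K → ℂ // IsIrrChar chi} //
        ∀ g : W p K, ConjClasses.mk g = q.1 → q.2.1 g = 0} : ℝ) ≤ ((kc - cv : ℕ) : ℝ) * ki := by
        exact_mod_cast hz
      nlinarith
  refine h2.trans ?_
  have h3 : kc * n * p ≤ p ^ n * (p + n ^ 2) := class_number_le
  have h4 : p ^ n ≤ n * cv := CV_card
  have h5 : kc * n * p ≤ n * cv * (p + n ^ 2) := h3.trans (Nat.mul_le_mul_right _ h4)
  have h6 : kc * p ≤ cv * (p + n ^ 2) := by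
    have : n * (kc * p) ≤ n * (cv * (p + n ^ 2)) := by
      calc n * (kc * p) = kc * n * p := by ring
        _ ≤ n * cv * (p + n ^ 2) := h5
        _ = n * (cv * (p + n ^ 2)) := by ring
    exact Nat.le_of_mul_le_mul_left this hnpos
  have h7 : (kc : ℝ) * p ≤ cv * (p + n ^ 2) := by exact_mod_cast h6
  have hkc' : (0 : ℝ) < kc := by exact_mod_cast hkcpos
  have hp' : (0 : ℝ) < p := by exact_mod_cast hppos
  rw [div_le_div_iff₀ hkc' hp', Nat.cast_sub hle]
  have h8 : (cv : ℝ) ≤ kc := by exact_mod_cast hle
  have h9 : (0 : ℝ) ≤ (n : ℝ) ^ 2 := by positivity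
  nlinarith [mul_le_mul_of_nonneg_right h8 h9]

end

/-- finite solvable groups of every Fitting height -/
theorem exists_height (h : ℕ) : ∃ (K : Type) (_ : Group K) (_ : Fintype K),
    Group.IsSolvable K ∧ HasFittingHeight K h := by
  induction h with
  | zero =>
    refine ⟨Unit, inferInstance, inferInstance, inferInstance, ?_, ?_⟩
    · change (⊥ : Subgroup Unit) = ⊤
      exact Subsingleton.elim _ _
    · intro m _
      exact Nat.zero_le m
  | succ h ih =>
    obtain ⟨K, i1, i2, hs, hh⟩ := ih
    obtain ⟨p, hp1, hp2⟩ := Nat.exists_infinite_primes (Fintype.card K + 1)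
    haveI : Fact p.Prime := ⟨hp2⟩
    refine ⟨W p K, inferInstance, inferInstance, solvable_wreath, height_wreath ?_ hh⟩
    intro hd
    have := Nat.le_of_dvd Fintype.card_pos hd
    omega

/-- **Main theorem.** For every `ε > 0` and every `h ≥ 1` there is a finite solvable group of
Fitting height exactly `h` whose proportion of zeros in the character table is at most `ε`. In
particular the zero proportion does not tend to `1` when the Fitting height tends to infinity. -/
theorem result : ∀ ε : ℝ, 0 < ε → ∀ h : ℕ, 1 ≤ h →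
    ∃ (G : Type) (_ : Group G) (_ : Finite G), Group.IsSolvable G ∧ HasFittingHeight G h ∧
      zeroProportion G ≤ ε := by
  intro ε hε h hh
  obtain ⟨s, rfl⟩ : ∃ s, h = s + 1 := ⟨h - 1, by omega⟩
  obtain ⟨K, i1, i2, hs, hK⟩ := exists_height s
  obtain ⟨N, hN⟩ := exists_nat_gt ((Fintype.card K : ℝ) ^ 2 / ε)
  obtain ⟨p, hp1, hp2⟩ := Nat.exists_infinite_primes (Fintype.card K + 1 + N)
  haveI : Fact p.Prime := ⟨hp2⟩
  have hlt : Fintype.card K < p := by omega
  refine ⟨W p K, inferInstance, inferInstance, solvable_wreath, height_wreath ?_ hK, ?_⟩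
  · intro hd
    have := Nat.le_of_dvd Fintype.card_pos hd
    omega
  · refine (zp_wreath hlt).trans ?_
    have hp' : (0 : ℝ) < p := by exact_mod_cast hp2.pos
    rw [div_le_iff₀ hp']
    rw [div_lt_iff₀ hε] at hN
    have h1 : (N : ℝ) ≤ p := by exact_mod_cast (by omega : N ≤ p)
    nlinarith

end Pool.Agent.Results.MP_c522d4_al.ZeroProportion
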